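import Mathlib

/-!
Minkowski's lemma for a ring which is finitely generated as an abelian group: its periodic groups of
units are finite.
-/

set_option autoImplicit false

namespace Pool.Agent.Y55.Fpf

section Mink

variable {S : Type*} [Ring S]

lemma exists_exp [Module.Finite ℤ S] :
    ∃ e : ℕ, 0 < e ∧ ∀ (s : S) (k : ℤ), k ≠ 0 → k • s = 0 → e • s = 0 := by
  have h1 : Module.Finite ℤ (Submodule.torsion ℤ S) := inferInstance
  have h2 : Module.IsTorsion ℤ (Submodule.torsion ℤ S) := Submodule.torsion_isTorsion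
  have h3 : Finite (Submodule.torsion ℤ S) := Module.finite_of_fg_torsion _ h2
  refine ⟨Nat.card (Submodule.torsion ℤ S), Nat.card_pos, fun s k hk hs => ?_⟩
  have hs' : s ∈ Submodule.torsion ℤ S := by
    rw [Submodule.mem_torsion_iff]
    exact ⟨⟨k, mem_nonZeroDivisors_of_ne_zero hk⟩, hs⟩
  have h4 : Nat.card (Submodule.torsion ℤ S) • (⟨s, hs'⟩ : Submodule.torsion ℤ S) = 0 :=
    card_nsmul_eq_zero'
  exact congrArg Subtype.val h4

lemma pow_expand (v : S) (n : ℕ) : ∃ w : S, (1 + v) ^ n = 1 + (n : ℤ) • v + v * v * w := by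
  induction n with
  | zero => exact ⟨0, by simp⟩
  | succ n ih =>
    obtain ⟨w, hw⟩ := ih
    refine ⟨(n : ℤ) • 1 + w * (1 + v), ?_⟩
    rw [pow_succ, hw]
    push_cast
    simp only [add_mul, mul_add, mul_one, one_mul, add_smul, one_smul, smul_mul_assoc,
      mul_smul_comm]
    simp only [mul_assoc]
    abel

/-- The case of prime order. -/
lemma prime_case [Module.Finite ℤ S] (e : ℕ) (he : 0 < e)
    (htor : ∀ (s : S) (k : ℤ), k ≠ 0 → k • s = 0 → e • s = 0) (l : ℕ) (hl : l.Prime) (v : S)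
    (hv : ∃ s, v = ((3 * e : ℕ) : ℤ) • s) (hp : (1 + v) ^ l = 1) : v = 0 := by
  have he0 : (e : ℤ) ≠ 0 := by exact_mod_cast he.ne'
  have hkill : ∀ (s : S) (k : ℤ), k ≠ 0 → k • s = 0 → ((3 * e : ℕ) : ℤ) • s = 0 := by
    intro s k hk hs
    have h := htor s k hk hs
    have h2 : ((3 * e : ℕ) : ℤ) • s = (3 : ℤ) • (e • s) := by
      rw [← natCast_zsmul s e, smul_smul]
      push_cast
      rfl
    rw [h2, h, smul_zero]
  have step : ∀ a : ℕ, ∃ s, v = ((3 : ℤ) ^ a * ((3 * e : ℕ) : ℤ)) • s := by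
    intro a
    induction a with
    | zero => simpa using hv
    | succ a ih =>
      obtain ⟨s, hs⟩ := ih
      have hvv : v * v = ((3 : ℤ) ^ (a + 1) * ((3 * e : ℕ) : ℤ)) •
          (((3 : ℤ) ^ a * (e : ℤ)) • (s * s)) := by
        rw [hs, smul_mul_smul_comm, smul_smul]
        congr 1
        push_cast
        ring
      by_cases hl3 : l = 3
      · subst hl3
        have h1 : (3 : ℤ) • v + (3 : ℤ) • (v * v) + v * v * v = 0 := by
          have h2 : (1 + v) ^ 3 = 1 + ((3 : ℤ) • v + (3 : ℤ) • (v * v) + v * v * v) := by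
            have e3 : (3 : ℤ) = 1 + 1 + 1 := by norm_num
            rw [e3]
            simp only [pow_succ, pow_zero, one_mul, mul_one, add_mul, mul_add, add_smul, one_smul]
            simp only [mul_assoc]
            abel
          rw [h2] at hp
          exact add_eq_left.mp hp
        -- `3 v = 3 ^ (a + 2) q s'`
        let s' : S := -(((3 : ℤ) ^ a * (e : ℤ)) • (s * s)) -
          ((3 : ℤ) ^ (2 * a) * (e : ℤ) ^ 2) • (s * s * s)
        have hvvv : v * v * v = ((3 : ℤ) ^ (a + 2) * ((3 * e : ℕ) : ℤ)) •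
            (((3 : ℤ) ^ (2 * a) * (e : ℤ) ^ 2) • (s * s * s)) := by
          rw [hvv, smul_smul]
          conv_lhs => rw [hs]
          rw [smul_mul_smul_comm, smul_smul]
          congr 1
          push_cast
          ring
        have h3 : (3 : ℤ) • v = ((3 : ℤ) ^ (a + 2) * ((3 * e : ℕ) : ℤ)) • s' := by
          have h4 : (3 : ℤ) • v = -((3 : ℤ) • (v * v)) - v * v * v := by
            rw [eq_sub_iff_add_eq, eq_neg_iff_add_eq_zero, ← h1]
            abel
          rw [h4, hvvv, hvv]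
          simp only [s', smul_sub, smul_neg, smul_smul]
          congr 1
          congr 1
          congr 1
          ring
        refine ⟨s', ?_⟩
        have h5 : ((3 : ℤ) * ((3 * e : ℕ) : ℤ)) • ((3 : ℤ) ^ a • s - (3 : ℤ) ^ (a + 1) • s') = 0 := by
          have h6 : ((3 : ℤ) * ((3 * e : ℕ) : ℤ)) • ((3 : ℤ) ^ a • s) = (3 : ℤ) • v := by
            rw [hs, smul_smul, smul_smul]
            congr 1
            ring
          have h7 : ((3 : ℤ) * ((3 * e : ℕ) : ℤ)) • ((3 : ℤ) ^ (a + 1) • s') = (3 : ℤ) • v := by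
            rw [h3, smul_smul]
            congr 1
            ring
          rw [smul_sub, h6, h7, sub_self]
        have h8 := hkill _ _ (by
          have : (3 * e : ℕ) ≠ 0 := by omega
          exact mul_ne_zero (by norm_num) (by exact_mod_cast this)) h5
        rw [smul_sub, sub_eq_zero, smul_smul, smul_smul] at h8
        rw [hs, mul_comm, h8, mul_comm]
      · obtain ⟨w, hw⟩ := pow_expand v l
        rw [hp] at hw
        have h1 : (l : ℤ) • v = -(v * v * w) := by
          rw [eq_neg_iff_add_eq_zero]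
          have : (1 : S) = 1 + ((l : ℤ) • v + v * v * w) := by rw [← add_assoc]; exact hw
          exact (left_eq_add.mp this)
        have hcop : IsCoprime (l : ℤ) 3 := by
          have h := Nat.isCoprime_iff_coprime.mpr ((Nat.coprime_primes hl Nat.prime_three).mpr hl3)
          exact_mod_cast h
        obtain ⟨c, d, hcd⟩ := hcop
        have hvw : v * v * w = ((3 : ℤ) ^ (a + 1) * ((3 * e : ℕ) : ℤ)) •
            (((3 : ℤ) ^ a * (e : ℤ)) • (s * s) * w) := by
          rw [hvv, smul_mul_assoc]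
        refine ⟨c • (-(((3 : ℤ) ^ a * (e : ℤ)) • (s * s) * w)) + d • s, ?_⟩
        have h2 : v = c • ((l : ℤ) • v) + d • ((3 : ℤ) • v) := by
          rw [smul_smul, smul_smul, ← add_smul, hcd, one_smul]
        have h3 : (3 : ℤ) • v = ((3 : ℤ) ^ (a + 1) * ((3 * e : ℕ) : ℤ)) • s := by
          rw [hs, smul_smul]
          congr 1
          ring
        rw [h2, h1, h3, hvw]
        simp only [smul_mul_assoc]
        module
  -- the intersection
  obtain ⟨s0, hs0⟩ := hv
  have hmem : v ∈ (⨅ i : ℕ, (Ideal.span {(3 : ℤ)}) ^ i • ⊤ : Submodule ℤ S) := by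
    rw [Submodule.mem_iInf]
    intro i
    obtain ⟨s, hs⟩ := step i
    rw [hs, mul_smul]
    exact Submodule.smul_mem_smul (Ideal.pow_mem_pow (Ideal.mem_span_singleton_self _) _)
      Submodule.mem_top
  rw [Ideal.mem_iInf_smul_pow_eq_bot_iff] at hmem
  obtain ⟨⟨r, hr⟩, hrv⟩ := hmem
  rw [Ideal.mem_span_singleton] at hr
  obtain ⟨r', rfl⟩ := hr
  have h1 : ((1 - 3 * r') * ((3 * e : ℕ) : ℤ)) • s0 = 0 := by
    rw [mul_smul, ← hs0, sub_smul, one_smul]
    have : (3 * r') • v = v := hrv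
    rw [this, sub_self]
  have h2 := hkill _ _ (by
    refine mul_ne_zero (by omega) ?_
    have : (3 * e : ℕ) ≠ 0 := by omega
    exact_mod_cast this) h1
  rw [hs0, h2]

/-- Elements of finite order congruent to `1` are trivial. -/
lemma kernel [Module.Finite ℤ S] (e : ℕ) (he : 0 < e)
    (htor : ∀ (s : S) (k : ℤ), k ≠ 0 → k • s = 0 → e • s = 0) (u : S)
    (hu : ∃ s, u = 1 + ((3 * e : ℕ) : ℤ) • s) (n : ℕ) (hn : 0 < n) (h : u ^ n = 1) : u = 1 := by
  have hpow : ∀ k : ℕ, ∃ s, u ^ k = 1 + ((3 * e : ℕ) : ℤ) • s := by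
    intro k
    induction k with
    | zero => exact ⟨0, by simp⟩
    | succ k ih =>
      obtain ⟨s, hs⟩ := ih
      obtain ⟨t, ht⟩ := hu
      refine ⟨t + s + ((3 * e : ℕ) : ℤ) • (s * t), ?_⟩
      rw [pow_succ, hs]
      conv_lhs => rw [ht]
      simp only [add_mul, mul_add, one_mul, mul_one, smul_add, smul_mul_assoc, mul_smul_comm]
      abel
  induction n using Nat.strong_induction_on with
  | _ n ih =>
    by_cases h1 : n = 1
    · subst h1
      simpa using h
    · have hp := Nat.minFac_prime h1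
      obtain ⟨k, hk⟩ := Nat.minFac_dvd n
      have hk0 : 0 < k := by
        rcases Nat.eq_zero_or_pos k with h0 | h0
        · rw [h0, mul_zero] at hk; omega
        · exact h0
      have hkn : k < n := by
        have h2 := hp.two_le
        calc k < 2 * k := by omega
          _ ≤ n.minFac * k := Nat.mul_le_mul_right _ h2
          _ = n := hk.symm
      obtain ⟨s, hs⟩ := hpow k
      have h2 : (1 + ((3 * e : ℕ) : ℤ) • s) ^ n.minFac = 1 := by
        rw [← hs, ← pow_mul, mul_comm, ← hk, h]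
      have h3 := prime_case e he htor _ hp _ ⟨s, rfl⟩ h2
      refine ih k hkn hk0 ?_
      rw [hs, h3, add_zero]

end Mink

open Pointwise in
/-- A periodic group which is represented by elements of a ring that is finitely generated as an
abelian group is finite. -/
theorem finite_of_rep {Γ : Type*} [Group Γ] {E : Type*} [Ring E] (ρ : Γ →* E)
    (hρ : Function.Injective ρ) (S : Subring E) [Module.Finite ℤ S] (H : Subgroup Γ)
    (hS : ∀ h ∈ H, ρ h ∈ S) (hper : ∀ h ∈ H, IsOfFinOrder h) : Finite H := by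
  obtain ⟨e, he, htor⟩ := exists_exp (S := S)
  have hq : ((3 * e : ℕ) : ℤ) ≠ 0 := by
    have : (3 * e : ℕ) ≠ 0 := by omega
    exact_mod_cast this
  let Q : Submodule ℤ S := Ideal.span {((3 * e : ℕ) : ℤ)} • ⊤
  have htQ : Module.IsTorsion ℤ (S ⧸ Q) := by
    intro x
    refine ⟨⟨((3 * e : ℕ) : ℤ), mem_nonZeroDivisors_of_ne_zero hq⟩, ?_⟩
    induction x using Submodule.Quotient.induction_on with
    | _ x =>
      change ((3 * e : ℕ) : ℤ) • (Submodule.Quotient.mk x : S ⧸ Q) = 0
      rw [← Submodule.Quotient.mk_smul, Submodule.Quotient.mk_eq_zero]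
      exact Submodule.smul_mem_smul (Ideal.mem_span_singleton_self _) Submodule.mem_top
  have hfin : Finite (S ⧸ Q) := Module.finite_of_fg_torsion _ htQ
  refine Finite.of_injective (fun h : H => (Submodule.Quotient.mk ⟨ρ h, hS h h.2⟩ : S ⧸ Q)) ?_
  intro h h' hh
  rw [Submodule.Quotient.eq] at hh
  have hh2 : ∃ s : S, (⟨ρ h, hS h h.2⟩ - ⟨ρ h', hS h' h'.2⟩ : S) = ((3 * e : ℕ) : ℤ) • s := by
    have hQ : Q = ((3 * e : ℕ) : ℤ) • (⊤ : Submodule ℤ S) :=
      Submodule.ideal_span_singleton_smul _ _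
    rw [hQ, Submodule.mem_smul_pointwise_iff_exists] at hh
    obtain ⟨s, _, hs⟩ := hh
    exact ⟨s, hs.symm⟩
  obtain ⟨s, hs⟩ := hh2
  have hmem : ((h : Γ) * (h' : Γ)⁻¹) ∈ H := H.mul_mem h.2 (H.inv_mem h'.2)
  have hinv : ((h' : Γ)⁻¹) ∈ H := H.inv_mem h'.2
  let u : S := ⟨ρ ((h : Γ) * (h' : Γ)⁻¹), hS _ hmem⟩
  have hu : u = 1 + ((3 * e : ℕ) : ℤ) • (s * ⟨ρ ((h' : Γ)⁻¹), hS _ hinv⟩) := by
    rw [← smul_mul_assoc, ← hs, sub_mul]
    apply Subtype.ext
    have h4 : ρ (h' : Γ) * ρ ((h' : Γ)⁻¹) = 1 := by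
      rw [← map_mul, mul_inv_cancel, map_one]
    change ρ ((h : Γ) * (h' : Γ)⁻¹) = 1 + (ρ h * ρ ((h' : Γ)⁻¹) - ρ h' * ρ ((h' : Γ)⁻¹))
    rw [h4, map_mul]
    abel
  obtain ⟨n, hn, hn2⟩ := (isOfFinOrder_iff_pow_eq_one.mp (hper _ hmem))
  have hun : u ^ n = 1 := by
    apply Subtype.ext
    simp only [u, SubmonoidClass.coe_pow, OneMemClass.coe_one]
    rw [← map_pow, hn2, map_one]
  have h1 := kernel e he htor u ⟨_, hu⟩ n hn hun
  have h2 : ρ ((h : Γ) * (h' : Γ)⁻¹) = ρ 1 := by
    rw [map_one]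
    exact congrArg Subtype.val h1
  have h3 := hρ h2
  apply Subtype.ext
  exact mul_inv_eq_one.mp h3

end Pool.Agent.Y55.Fpf
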