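import Pool.Agent.Y55.Fpf.Mink

/-!
Periodic groups generated by two automorphisms of an abelian group, one of which is `-1` or which
both satisfy quadratic equations `x ^ 2 = s x - 1`, are finite.
-/

set_option autoImplicit false

namespace Pool.Agent.Y55.Fpf

section fg

variable {E : Type*} [Ring E]

lemma closure_le (x y : E) (M : Submodule ℤ E) (h1 : 1 ∈ M) (hx : ∀ m ∈ M, m * x ∈ M)
    (hy : ∀ m ∈ M, m * y ∈ M) : ∀ c ∈ Subring.closure ({x, y} : Set E), c ∈ M := by
  have key : ∀ c ∈ Subring.closure ({x, y} : Set E), ∀ m ∈ M, m * c ∈ M := by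
    intro c hc
    induction hc using Subring.closure_induction with
    | mem z hz =>
      rcases hz with rfl | hz
      · exact hx
      · rw [Set.mem_singleton_iff] at hz
        rw [hz]; exact hy
    | zero => intro m _; rw [mul_zero]; exact M.zero_mem
    | one => intro m hm; rwa [mul_one]
    | add a b _ _ ha hb => intro m hm; rw [mul_add]; exact M.add_mem (ha m hm) (hb m hm)
    | neg a _ ha => intro m hm; rw [mul_neg]; exact M.neg_mem (ha m hm)
    | mul a b _ _ ha hb => intro m hm; rw [← mul_assoc]; exact hb _ (ha m hm)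
  intro c hc
  have := key c hc 1 h1
  rwa [one_mul] at this

lemma finite_closure (x y : E) (M : Submodule ℤ E) (hM : M.FG) (h1 : 1 ∈ M)
    (hx : ∀ m ∈ M, m * x ∈ M) (hy : ∀ m ∈ M, m * y ∈ M) :
    Module.Finite ℤ (Subring.closure ({x, y} : Set E)) := by
  have : Module.Finite ℤ M := Module.Finite.iff_fg.mpr hM
  let f : Subring.closure ({x, y} : Set E) →ₗ[ℤ] M :=
    { toFun := fun c => ⟨c, closure_le x y M h1 hx hy c c.2⟩
      map_add' := fun _ _ => rfl
      map_smul' := fun _ _ => by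
        apply Subtype.ext
        simp }
  refine Module.Finite.of_injective f ?_
  intro a b h
  apply Subtype.ext
  exact congrArg (fun z : M => (z : E)) h

/-- The span of the powers of an element. -/
def powSpan (g : E) : Submodule ℤ E := Submodule.span ℤ (Set.range fun i : ℕ => g ^ i)

lemma pow_mem_powSpan (g : E) (i : ℕ) : g ^ i ∈ powSpan g := Submodule.subset_span ⟨i, rfl⟩

lemma one_mem_powSpan (g : E) : 1 ∈ powSpan g := by
  have := pow_mem_powSpan g 0
  rwa [pow_zero] at this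

lemma mul_pow_mem (g : E) (p : E) (hp : p ∈ powSpan g) (j : ℕ) : p * g ^ j ∈ powSpan g := by
  unfold powSpan at hp
  induction hp using Submodule.span_induction with
  | mem z hz =>
    obtain ⟨i, rfl⟩ := hz
    change g ^ i * g ^ j ∈ _
    rw [← pow_add]
    exact pow_mem_powSpan g _
  | zero => rw [zero_mul]; exact Submodule.zero_mem _
  | add a b _ _ ha hb => rw [add_mul]; exact Submodule.add_mem _ ha hb
  | smul c a _ ha => rw [smul_mul_assoc]; exact Submodule.smul_mem _ _ ha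

lemma powSpan_fg (g : E) (k : ℕ) (hk : 0 < k) (hg : g ^ k = 1) : (powSpan g).FG := by
  apply Submodule.fg_span
  refine (Set.toFinite ((fun i : ℕ => g ^ i) '' (Finset.range k : Set ℕ))).subset ?_
  rintro _ ⟨i, rfl⟩
  refine ⟨i % k, by simpa using Nat.mod_lt i hk, ?_⟩
  change g ^ (i % k) = g ^ i
  conv_rhs => rw [← Nat.div_add_mod i k, pow_add, pow_mul, hg, one_pow, one_mul]

/-- Two elements satisfying quadratic equations whose product has finite order. -/
lemma quad (x y : E) (s t : ℤ) (hx : x * x = s • x - 1) (hy : y * y = t • y - 1) (k : ℕ)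
    (hk : 0 < k) (hg : (x * y) ^ k = 1) :
    ∃ M : Submodule ℤ E, M.FG ∧ 1 ∈ M ∧ (∀ m ∈ M, m * x ∈ M) ∧ ∀ m ∈ M, m * y ∈ M := by
  set g := x * y with hgd
  set P := powSpan g with hP
  obtain ⟨k', rfl⟩ : ∃ k', k = k' + 1 := ⟨k - 1, by omega⟩
  have hxs : x * (s • 1 - x) = 1 := by rw [mul_sub, hx, mul_smul_comm, mul_one]; abel
  have hyt : y * (t • 1 - y) = 1 := by rw [mul_sub, hy, mul_smul_comm, mul_one]; abel
  have hginv : g * ((t • 1 - y) * (s • 1 - x)) = 1 := by
    rw [hgd, mul_assoc, ← mul_assoc y, hyt, one_mul, hxs]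
  have hginv2 : (t • 1 - y) * (s • 1 - x) = g ^ k' := by
    calc (t • 1 - y) * (s • 1 - x) = g ^ (k' + 1) * ((t • 1 - y) * (s • 1 - x)) := by
          rw [hg, one_mul]
      _ = g ^ k' := by rw [pow_succ, mul_assoc, hginv, mul_one]
  have hyx : y * x = g ^ k' - (t * s) • 1 + t • x + s • y := by
    rw [← hginv2]
    simp only [sub_mul, mul_sub, smul_mul_assoc, mul_smul_comm, one_mul, mul_one]
    module
  let M : Submodule ℤ E := P ⊔ P.map (LinearMap.mulRight ℤ x) ⊔ P.map (LinearMap.mulRight ℤ y)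
  have hPfg : P.FG := powSpan_fg g _ hk hg
  have mem : ∀ m, m ∈ M ↔ ∃ p ∈ P, ∃ q ∈ P, ∃ r ∈ P, m = p + q * x + r * y := by
    intro m
    simp only [M, Submodule.mem_sup, Submodule.mem_map, LinearMap.mulRight_apply]
    constructor
    · rintro ⟨_, ⟨p, hp, _, ⟨q, hq, rfl⟩, rfl⟩, _, ⟨r, hr, rfl⟩, rfl⟩
      exact ⟨p, hp, q, hq, r, hr, rfl⟩
    · rintro ⟨p, hp, q, hq, r, hr, rfl⟩
      exact ⟨_, ⟨p, hp, _, ⟨q, hq, rfl⟩, rfl⟩, _, ⟨r, hr, rfl⟩, rfl⟩
  refine ⟨M, (hPfg.sup (hPfg.map _)).sup (hPfg.map _), ?_, ?_, ?_⟩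
  · rw [mem]
    exact ⟨1, one_mem_powSpan g, 0, P.zero_mem, 0, P.zero_mem, by simp⟩
  · intro m hm
    rw [mem] at hm ⊢
    obtain ⟨p, hp, q, hq, r, hr, rfl⟩ := hm
    refine ⟨-q + r * g ^ k' - (t * s) • r, ?_, p + s • q + t • r, ?_, s • r, ?_, ?_⟩
    · exact P.sub_mem (P.add_mem (P.neg_mem hq) (mul_pow_mem g r hr k')) (P.smul_mem _ hr)
    · exact P.add_mem (P.add_mem hp (P.smul_mem _ hq)) (P.smul_mem _ hr)
    · exact P.smul_mem _ hr
    · simp only [add_mul, sub_mul, neg_mul, smul_mul_assoc]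
      rw [mul_assoc q, hx, mul_assoc r, hyx]
      simp only [mul_add, mul_sub, mul_smul_comm, mul_one]
      abel
  · intro m hm
    rw [mem] at hm ⊢
    obtain ⟨p, hp, q, hq, r, hr, rfl⟩ := hm
    refine ⟨q * g ^ 1 - r, ?_, 0, P.zero_mem, p + t • r, ?_, ?_⟩
    · exact P.sub_mem (mul_pow_mem g q hq 1) hr
    · exact P.add_mem hp (P.smul_mem _ hr)
    · simp only [add_mul, smul_mul_assoc, zero_mul, pow_one]
      rw [mul_assoc q, ← hgd, mul_assoc r, hy]
      simp only [mul_sub, mul_smul_comm, mul_one]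
      abel

end fg

/-- The representation of the automorphism group by endomorphisms. -/
def rho (A : Type*) [AddCommGroup A] : (A ≃ₗ[ℤ] A) →* AddMonoid.End A where
  toFun φ := (φ : A →ₗ[ℤ] A).toAddMonoidHom
  map_one' := rfl
  map_mul' _ _ := rfl

lemma rho_apply {A : Type*} [AddCommGroup A] (φ : A ≃ₗ[ℤ] A) (a : A) : rho A φ a = φ a := rfl

lemma rho_injective (A : Type*) [AddCommGroup A] : Function.Injective (rho A) := by
  intro φ ψ h
  refine LinearEquiv.ext fun a => ?_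
  exact DFunLike.congr_fun h a

variable {A : Type*} [AddCommGroup A]

lemma finite_group (α β : A ≃ₗ[ℤ] A) (M : Submodule ℤ (AddMonoid.End A)) (hM : M.FG)
    (h1 : 1 ∈ M) (hx : ∀ m ∈ M, m * rho A α ∈ M) (hy : ∀ m ∈ M, m * rho A β ∈ M)
    (hper : ∀ g ∈ Subgroup.closure ({α, β} : Set (A ≃ₗ[ℤ] A)), IsOfFinOrder g) :
    Finite (Subgroup.closure ({α, β} : Set (A ≃ₗ[ℤ] A))) := by
  have := finite_closure (rho A α) (rho A β) M hM h1 hx hy
  refine finite_of_rep (rho A) (rho_injective A) (Subring.closure {rho A α, rho A β}) _ ?_ hper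
  intro h hh
  induction hh using Subgroup.closure_induction with
  | mem z hz =>
    apply Subring.subset_closure
    rcases hz with rfl | hz
    · exact Or.inl rfl
    · rw [Set.mem_singleton_iff] at hz
      rw [hz]; exact Or.inr rfl
  | one => rw [map_one]; exact Subring.one_mem _
  | mul a b _ _ ha hb => rw [map_mul]; exact Subring.mul_mem _ ha hb
  | inv a hmem ha =>
    obtain ⟨n, hn, hn2⟩ := isOfFinOrder_iff_pow_eq_one.mp (hper a hmem)
    have h2 : a⁻¹ = a ^ (n - 1) := by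
      rw [inv_eq_iff_mul_eq_one, ← pow_succ', Nat.sub_add_cancel hn, hn2]
    rw [h2, map_pow]
    exact Subring.pow_mem _ ha _

/-- Two quadratic automorphisms. -/
theorem finite_of_quad (α β : A ≃ₗ[ℤ] A) (s t : ℤ) (hα : ∀ a, α (α a) = s • α a - a)
    (hβ : ∀ a, β (β a) = t • β a - a)
    (hper : ∀ g ∈ Subgroup.closure ({α, β} : Set (A ≃ₗ[ℤ] A)), IsOfFinOrder g) :
    Finite (Subgroup.closure ({α, β} : Set (A ≃ₗ[ℤ] A))) := by
  have hab : α * β ∈ Subgroup.closure ({α, β} : Set (A ≃ₗ[ℤ] A)) :=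
    Subgroup.mul_mem _ (Subgroup.subset_closure (Or.inl rfl))
      (Subgroup.subset_closure (Or.inr rfl))
  obtain ⟨k, hk, hk2⟩ := isOfFinOrder_iff_pow_eq_one.mp (hper _ hab)
  have hx : rho A α * rho A α = s • rho A α - 1 := by
    ext a
    exact hα a
  have hy : rho A β * rho A β = t • rho A β - 1 := by
    ext a
    exact hβ a
  obtain ⟨M, hM, h1, h2, h3⟩ := quad (rho A α) (rho A β) s t hx hy k hk (by
    rw [← map_mul, ← map_pow, hk2, map_one])
  exact finite_group α β M hM h1 h2 h3 hper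

/-- One automorphism is `-1`. -/
theorem finite_of_neg (α β : A ≃ₗ[ℤ] A) (hα : ∀ a, α a = -a)
    (hper : ∀ g ∈ Subgroup.closure ({α, β} : Set (A ≃ₗ[ℤ] A)), IsOfFinOrder g) :
    Finite (Subgroup.closure ({α, β} : Set (A ≃ₗ[ℤ] A))) := by
  obtain ⟨k, hk, hk2⟩ := isOfFinOrder_iff_pow_eq_one.mp
    (hper β (Subgroup.subset_closure (Or.inr rfl)))
  have hx : rho A α = -1 := by
    ext a
    exact hα a
  refine finite_group α β (powSpan (rho A β)) (powSpan_fg _ k hk (by
    rw [← map_pow, hk2, map_one])) (one_mem_powSpan _) ?_ ?_ hper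
  · intro m hm
    rw [hx, mul_neg, mul_one]
    exact Submodule.neg_mem _ hm
  · intro m hm
    have := mul_pow_mem _ m hm 1
    rwa [pow_one] at this

/-- The sum of the powers of a fixed-point-free automorphism of finite order. -/
lemma sum_pow (φ : A ≃ₗ[ℤ] A) (n : ℕ) (hn : φ ^ n = 1) (hφ : ∀ a, φ a = a → a = 0) (a : A) :
    ∑ i ∈ Finset.range n, (φ ^ i) a = 0 := by
  apply hφ
  rw [map_sum]
  have h1 : ∀ i, φ ((φ ^ i) a) = (φ ^ (i + 1)) a := fun i => by
    rw [pow_succ']; rfl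
  simp only [h1]
  have h2 := Finset.sum_range_succ (fun i => (φ ^ i) a) n
  have h3 := Finset.sum_range_succ' (fun i => (φ ^ i) a) n
  rw [h2] at h3
  have h4 : (φ ^ n) a = (φ ^ 0) a := by rw [hn, pow_zero]
  rw [h4] at h3
  exact (add_right_cancel h3).symm

/-- The automorphism fixes only zero. -/
def FixedPointFree (φ : A ≃ₗ[ℤ] A) : Prop := ∀ a : A, φ a = a → a = 0

/-- All the nontrivial powers of the automorphism fix only zero. -/
def Regular (φ : A ≃ₗ[ℤ] A) : Prop := ∀ k : ℕ, φ ^ k ≠ 1 → FixedPointFree (φ ^ k)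

lemma neg_of_two (φ : A ≃ₗ[ℤ] A) (h : φ ^ 2 = 1) (hf : FixedPointFree φ) (a : A) : φ a = -a := by
  have := sum_pow φ 2 h hf a
  rw [Finset.sum_range_succ, Finset.sum_range_one, pow_zero, pow_one] at this
  have h2 : a + φ a = 0 := this
  rw [add_comm] at h2
  exact eq_neg_of_add_eq_zero_left h2

lemma quad_of_three (φ : A ≃ₗ[ℤ] A) (h : φ ^ 3 = 1) (hf : FixedPointFree φ) (a : A) :
    φ (φ a) = (-1 : ℤ) • φ a - a := by
  have := sum_pow φ 3 h hf a
  rw [Finset.sum_range_succ, Finset.sum_range_succ, Finset.sum_range_one, pow_zero, pow_one,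
    pow_two] at this
  have h2 : a + φ a + φ (φ a) = 0 := this
  rw [neg_one_smul]
  rw [add_comm] at h2
  rw [eq_neg_of_add_eq_zero_left h2]
  abel

lemma quad_of_four (φ : A ≃ₗ[ℤ] A) (h : orderOf φ = 4) (hf : Regular φ) (a : A) :
    φ (φ a) = (0 : ℤ) • φ a - a := by
  have h1 : φ ^ 2 ≠ 1 := fun h1 => by
    have := orderOf_dvd_of_pow_eq_one h1
    rw [h] at this
    omega
  have h4 : φ ^ 4 = 1 := by rw [← h]; exact pow_orderOf_eq_one φ
  have h2 : (φ ^ 2) ^ 2 = 1 := by
    rw [← pow_mul]; exact h4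
  have := neg_of_two (φ ^ 2) h2 (hf 2 h1) a
  rw [pow_two] at this
  have h3 : φ (φ a) = -a := this
  rw [h3]
  simp

lemma quad_of_six (φ : A ≃ₗ[ℤ] A) (h : orderOf φ = 6) (hf : Regular φ) (a : A) :
    φ (φ a) = (1 : ℤ) • φ a - a := by
  have h6 : φ ^ 6 = 1 := by rw [← h]; exact pow_orderOf_eq_one φ
  have h1 : φ ^ 2 ≠ 1 := fun h1 => by
    have := orderOf_dvd_of_pow_eq_one h1
    rw [h] at this
    omega
  have h2 : φ ^ 3 ≠ 1 := fun h1 => by
    have := orderOf_dvd_of_pow_eq_one h1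
    rw [h] at this
    omega
  have h3 := neg_of_two (φ ^ 3) (by rw [← pow_mul]; exact h6) (hf 3 h2)
  have h4 := quad_of_three (φ ^ 2) (by rw [← pow_mul]; exact h6) (hf 2 h1) a
  have h5 : φ (φ (φ (φ a))) = (-1 : ℤ) • φ (φ a) - a := h4
  have h7 : φ (φ (φ (φ a))) = -φ a := h3 (φ a)
  rw [h7] at h5
  rw [one_smul, neg_one_smul] at *
  have h8 : φ (φ a) = φ a - a := by
    have : φ (φ a) = -(-φ (φ a) - a) - a := by abel
    rw [this, ← h5]
    abel
  exact h8

end Pool.Agent.Y55.Fpf
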