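import Pool.Agent.Helper884.Golod
import Pool.Agent.Y55.Fpf.Pos

/-!
Infinite periodic groups generated by two fixed-point-free automorphisms.
-/

set_option autoImplicit false

namespace Pool.Agent.Y55.Fpf

open Pool.Agent.Helper884.Golod

section Ring

variable {K : Type} [Field K] {A : Type} [Ring A] [Algebra K A]

/-- `3 × 3` matrices. -/
abbrev R3 (A : Type) := Matrix (Fin 3) (Fin 3) A

/-- The first row of the idempotent. -/
def row (a b : A) : Fin 3 → A := ![a, b, 1 - a - b]

/-- The idempotent with three equal rows `(a, b, 1 - a - b)`. -/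
def idem (a b : A) : R3 A := Matrix.of fun _ j => row a b j

lemma idem_mul (a b : A) : idem a b * idem a b = idem a b := by
  ext i j
  simp only [idem, Matrix.mul_apply, Matrix.of_apply]
  rw [← Finset.sum_mul]
  have : ∑ i, row a b i = 1 := by
    simp [row, Fin.sum_univ_three]
  rw [this, one_mul]

/-- Combinations of `1 - e` and `e`. -/
noncomputable def sHom (a b : A) : K × K →+* R3 A where
  toFun u := u.1 • (1 - idem a b) + u.2 • idem a b
  map_one' := by simp
  map_mul' u v := by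
    have h := idem_mul a b
    have h2 : (1 - idem a b) * idem a b = 0 := by rw [sub_mul, one_mul, h, sub_self]
    have h3 : idem a b * (1 - idem a b) = 0 := by rw [mul_sub, mul_one, h, sub_self]
    have h4 : (1 - idem a b) * (1 - idem a b) = 1 - idem a b := by
      rw [mul_sub, h2, mul_one, sub_zero]
    simp only [add_mul, mul_add, smul_mul_smul_comm, h, h2, h3, h4, smul_zero, add_zero, zero_add,
      Prod.fst_mul, Prod.snd_mul]
  map_zero' := by simp
  map_add' u v := by
    simp only [Prod.fst_add, Prod.snd_add, add_smul]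
    abel

/-- Diagonal matrices of scalars. -/
noncomputable def tHom (K : Type) [Field K] (A : Type) [Ring A] [Algebra K A] :
    (Fin 3 → K) →+* R3 A where
  toFun v := Matrix.diagonal fun i => algebraMap K A (v i)
  map_one' := by simp
  map_mul' u v := by simp [Matrix.diagonal_mul_diagonal]
  map_zero' := by
    ext i j
    simp [Matrix.diagonal]
  map_add' u v := by simp [Matrix.diagonal_add]

/-- The first unit. -/
noncomputable def ua (a b : A) (z : Kˣ) : (R3 A)ˣ :=
  Units.map (sHom (K := K) a b).toMonoidHom (MulEquiv.prodUnits.symm (z⁻¹, z))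

/-- The second unit. -/
noncomputable def ub (A : Type) [Ring A] [Algebra K A] (w : Kˣ) (j : ℕ) : (R3 A)ˣ :=
  Units.map (tHom K A).toMonoidHom (MulEquiv.piUnits.symm ![w, w⁻¹, w ^ j])

lemma ua_val (a b : A) (z : Kˣ) (k : ℕ) :
    ((ua a b z ^ k : (R3 A)ˣ) : R3 A) = sHom (K := K) a b (((z⁻¹ : Kˣ) : K) ^ k, (z : K) ^ k) := by
  rw [Units.val_pow_eq_pow_val]
  change (sHom (K := K) a b (((z⁻¹ : Kˣ) : K), (z : K))) ^ k = _
  rw [← map_pow]
  rfl

lemma ub_val (w : Kˣ) (j k : ℕ) :
    ((ub A w j ^ k : (R3 A)ˣ) : R3 A) =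
      tHom K A ![(w : K) ^ k, ((w⁻¹ : Kˣ) : K) ^ k, ((w : K) ^ j) ^ k] := by
  rw [Units.val_pow_eq_pow_val]
  change (tHom K A (fun i => ((![w, w⁻¹, w ^ j] i : Kˣ) : K))) ^ k = _
  rw [← map_pow]
  congr 1
  ext i
  fin_cases i <;> simp

lemma idem_ne_zero [Nontrivial A] (a b : A) : idem a b ≠ 0 := by
  intro h
  have h0 := congrFun (congrFun h 0) 0
  have h1 := congrFun (congrFun h 0) 1
  have h2 := congrFun (congrFun h 0) 2
  simp [idem, row] at h0 h1 h2
  rw [h0, h1] at h2
  simp at h2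

lemma smul_left_cancel_field {M : Type} [AddCommGroup M] [Module K M] (c : K) (x : M)
    (hx : x ≠ 0) (h : c • x = x) : c = 1 := by
  have : (c - 1) • x = 0 := by rw [sub_smul, h, one_smul, sub_self]
  rcases smul_eq_zero.mp this with h1 | h1
  · exact sub_eq_zero.mp h1
  · exact absurd h1 hx

lemma orderOf_ua [Nontrivial A] (a b : A) (z : Kˣ) : orderOf (ua a b z) = orderOf z := by
  apply Nat.dvd_antisymm
  · exact (orderOf_map_dvd _ _).trans (by
      rw [MulEquiv.orderOf_eq, Prod.orderOf_mk, orderOf_inv]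
      simp)
  · apply orderOf_dvd_of_pow_eq_one
    have h := congrArg Units.val (pow_orderOf_eq_one (ua a b z))
    rw [ua_val] at h
    have h2 : sHom (K := K) a b (((z⁻¹ : Kˣ) : K) ^ orderOf (ua a b z),
        (z : K) ^ orderOf (ua a b z)) * idem a b = idem a b := by
      rw [h]; exact one_mul _
    have h3 : sHom (K := K) a b (((z⁻¹ : Kˣ) : K) ^ orderOf (ua a b z),
        (z : K) ^ orderOf (ua a b z)) * idem a b =
        ((z : K) ^ orderOf (ua a b z)) • idem a b := by
      change ((((z⁻¹ : Kˣ) : K) ^ orderOf (ua a b z)) • (1 - idem a b) +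
        ((z : K) ^ orderOf (ua a b z)) • idem a b) * idem a b = _
      rw [add_mul, smul_mul_assoc, smul_mul_assoc, idem_mul, sub_mul, one_mul, idem_mul, sub_self,
        smul_zero, zero_add]
    rw [h3] at h2
    have h4 := smul_left_cancel_field (K := K) (M := R3 A) _ _ (idem_ne_zero a b) h2
    apply Units.ext
    rw [Units.val_pow_eq_pow_val, h4, Units.val_one]

lemma orderOf_ub [Nontrivial A] (w : Kˣ) (j : ℕ) : orderOf (ub A w j) = orderOf w := by
  apply Nat.dvd_antisymm
  · apply orderOf_dvd_of_pow_eq_one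
    apply Units.ext
    have h1 : (w : K) ^ orderOf w = 1 := by
      rw [← Units.val_pow_eq_pow_val, pow_orderOf_eq_one, Units.val_one]
    rw [ub_val, Units.val_one, ← map_one (tHom K A)]
    congr 1
    ext i
    have h2 : ((w⁻¹ : Kˣ) : K) ^ orderOf w = 1 := by
      rw [← Units.val_pow_eq_pow_val, inv_pow, pow_orderOf_eq_one, inv_one, Units.val_one]
    have h3 : ((w : K) ^ j) ^ orderOf w = 1 := by rw [← pow_mul, mul_comm, pow_mul, h1, one_pow]
    fin_cases i
    · exact h1
    · exact h2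
    · exact h3
  · apply orderOf_dvd_of_pow_eq_one
    have h := congrArg Units.val (pow_orderOf_eq_one (ub A w j))
    rw [ub_val] at h
    have h2 := congrFun (congrFun h 0) 0
    have h3 : algebraMap K A ((w : K) ^ orderOf (ub A w j)) = algebraMap K A 1 := by
      rw [map_one]
      simpa [tHom] using h2
    have h4 := (algebraMap K A).injective h3
    apply Units.ext
    rw [Units.val_pow_eq_pow_val, h4, Units.val_one]

/-- If `z ^ k ≠ 1`, the `k`-th power of the first unit minus one is invertible. -/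
lemma reg_ua (a b : A) (z : Kˣ) (k : ℕ) (hk : z ^ k ≠ 1) :
    ∃ r : R3 A, r * (((ua a b z ^ k : (R3 A)ˣ) : R3 A) - 1) = 1 := by
  have h1 : (z : K) ^ k - 1 ≠ 0 := fun h => hk (Units.ext (by
    rw [Units.val_pow_eq_pow_val, sub_eq_zero.mp h, Units.val_one]))
  have h2 : ((z⁻¹ : Kˣ) : K) ^ k - 1 ≠ 0 := fun h => hk (by
    have h3 : (z⁻¹) ^ k = 1 := Units.ext (by
      rw [Units.val_pow_eq_pow_val, sub_eq_zero.mp h, Units.val_one])
    rw [inv_pow, inv_eq_one] at h3
    exact h3)
  refine ⟨sHom (K := K) a b ((((z⁻¹ : Kˣ) : K) ^ k - 1)⁻¹, ((z : K) ^ k - 1)⁻¹), ?_⟩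
  rw [ua_val, ← map_one (sHom (K := K) a b), ← map_sub, ← map_mul]
  congr 1
  refine Prod.ext ?_ ?_
  · exact inv_mul_cancel₀ h2
  · exact inv_mul_cancel₀ h1

lemma reg_ub (w : Kˣ) (j k : ℕ) (hk : w ^ k ≠ 1) (hjk : w ^ (j * k) ≠ 1) :
    ∃ r : R3 A, r * (((ub A w j ^ k : (R3 A)ˣ) : R3 A) - 1) = 1 := by
  have h1 : (w : K) ^ k - 1 ≠ 0 := fun h => hk (Units.ext (by
    rw [Units.val_pow_eq_pow_val, sub_eq_zero.mp h, Units.val_one]))
  have h2 : ((w⁻¹ : Kˣ) : K) ^ k - 1 ≠ 0 := fun h => hk (by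
    have h3 : (w⁻¹) ^ k = 1 := Units.ext (by
      rw [Units.val_pow_eq_pow_val, sub_eq_zero.mp h, Units.val_one])
    rw [inv_pow, inv_eq_one] at h3
    exact h3)
  have h3 : ((w : K) ^ j) ^ k - 1 ≠ 0 := fun h => hjk (Units.ext (by
    rw [Units.val_pow_eq_pow_val, pow_mul, sub_eq_zero.mp h, Units.val_one]))
  refine ⟨tHom K A ![((w : K) ^ k - 1)⁻¹, (((w⁻¹ : Kˣ) : K) ^ k - 1)⁻¹, (((w : K) ^ j) ^ k - 1)⁻¹],
    ?_⟩
  rw [ub_val, ← map_one (tHom K A), ← map_sub, ← map_mul]
  congr 1
  ext i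
  fin_cases i
  · exact inv_mul_cancel₀ h1
  · exact inv_mul_cancel₀ h2
  · exact inv_mul_cancel₀ h3

/-- The matrix with the entry `c` in row `0` and column `j`. -/
abbrev E0 (j : Fin 3) (c : A) : R3 A := Matrix.single 0 j c

lemma tHom_single (j : Fin 3) : tHom K A (Pi.single j 1) = Matrix.single j j 1 := by
  change Matrix.diagonal (fun i => algebraMap K A ((Pi.single j 1 : Fin 3 → K) i)) = _
  ext p q
  by_cases hpq : p = q
  · subst hpq
    by_cases hj : p = j
    · subst hj; simp
    · rw [Matrix.diagonal_apply_eq, Pi.single_eq_of_ne hj, map_zero, Matrix.single_apply]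
      simp [Ne.symm hj]
  · rw [Matrix.diagonal_apply_ne _ hpq, Matrix.single_apply]
    rw [if_neg]
    rintro ⟨rfl, rfl⟩
    exact hpq rfl

lemma E0_mul_idem (a b : A) (i j : Fin 3) (c : A) :
    E0 i c * idem a b * tHom K A (Pi.single j 1) = E0 j (c * row a b j) := by
  rw [tHom_single, E0, Matrix.single_mul_mul_single, mul_one]
  rfl

/-- The scalars of the diagonal matrices, as an algebra homomorphism. -/
noncomputable def tAlg (K : Type) [Field K] (A : Type) [Ring A] [Algebra K A] :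
    (Fin 3 → K) →ₐ[K] R3 A :=
  { tHom K A with
    commutes' := fun c => by
      ext p q
      simp [tHom, Matrix.algebraMap_matrix_apply, Matrix.diagonal_apply] }

lemma tAlg_apply (v : Fin 3 → K) : tAlg K A v = tHom K A v := rfl

lemma single_mem (S : Subalgebra K (R3 A)) (v : Fin 3 → K) (hv : Function.Injective v)
    (h : tHom K A v ∈ S) (i : Fin 3) : tHom K A (Pi.single i 1) ∈ S := by
  classical
  let T := S.comap (tAlg K A)
  have hvT : v ∈ T := h
  have h1 : ∏ k ∈ Finset.univ.erase i, (v - algebraMap K (Fin 3 → K) (v k)) ∈ T :=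
    T.prod_mem fun k _ => T.sub_mem hvT (T.algebraMap_mem _)
  have h2 : (∏ k ∈ Finset.univ.erase i, (v i - v k)) ≠ 0 := by
    rw [Finset.prod_ne_zero_iff]
    intro k hk
    rw [sub_ne_zero]
    intro h3
    exact (Finset.mem_erase.mp hk).1 (hv h3).symm
  have h3 : (Pi.single i 1 : Fin 3 → K) = (∏ k ∈ Finset.univ.erase i, (v i - v k))⁻¹ •
      ∏ k ∈ Finset.univ.erase i, (v - algebraMap K (Fin 3 → K) (v k)) := by
    ext l
    rw [Pi.smul_apply, Finset.prod_apply, smul_eq_mul]
    by_cases hl : l = i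
    · subst hl
      rw [Pi.single_eq_same]
      exact (inv_mul_cancel₀ h2).symm
    · rw [Pi.single_eq_of_ne hl]
      have h4 : ∏ k ∈ Finset.univ.erase i, (v - algebraMap K (Fin 3 → K) (v k)) l = 0 :=
        Finset.prod_eq_zero (Finset.mem_erase.mpr ⟨hl, Finset.mem_univ l⟩) (by
          simp)
      rw [h4, mul_zero]
  have h4 : (Pi.single i 1 : Fin 3 → K) ∈ T := by
    rw [h3]
    exact T.smul_mem h1 _
  exact h4

lemma all_mem (a b : A) (hab : Algebra.adjoin K {a, b} = ⊤) (S : Subalgebra K (R3 A))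
    (he : idem a b ∈ S) (ht : ∀ i, tHom K A (Pi.single i 1) ∈ S) (c : A) :
    E0 0 (c * a) ∈ S ∧ E0 1 (c * b) ∈ S := by
  have key : ∀ i j r, E0 i r ∈ S → E0 j (r * row a b j) ∈ S := by
    intro i j r hr
    rw [← E0_mul_idem (K := K) a b i j r]
    exact S.mul_mem (S.mul_mem hr he) (ht j)
  have h01 : E0 0 (1 : A) ∈ S := by
    have := ht 0
    rwa [tHom_single] at this
  have smulE : ∀ (j : Fin 3) (k : K) (r : A), E0 j (k • r) = k • E0 j r := by
    intro j k r
    rw [E0, E0, Matrix.smul_single]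
  have addE : ∀ (j : Fin 3) (r s : A), E0 j (r + s) = E0 j r + E0 j s := by
    intro j r s
    rw [E0, E0, E0, Matrix.single_add]
  have hc : c ∈ Algebra.adjoin K {a, b} := by rw [hab]; exact Algebra.mem_top
  have main : ∀ r : A, (E0 0 (r * a) ∈ S ∧ E0 1 (r * b) ∈ S) →
      (E0 0 (r * c * a) ∈ S ∧ E0 1 (r * c * b) ∈ S) := by
    induction hc using Algebra.adjoin_induction with
    | mem y hy =>
      intro r hr
      rcases hy with rfl | hy
      · exact ⟨key 0 0 _ hr.1, key 0 1 _ hr.1⟩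
      · rw [Set.mem_singleton_iff] at hy
        rw [hy]
        exact ⟨key 1 0 _ hr.2, key 1 1 _ hr.2⟩
    | algebraMap k =>
      intro r hr
      have e : r * algebraMap K A k = k • r := by rw [Algebra.smul_def, Algebra.commutes]
      rw [e, smul_mul_assoc, smul_mul_assoc, smulE, smulE]
      exact ⟨S.smul_mem hr.1 _, S.smul_mem hr.2 _⟩
    | add y z _ _ hy hz =>
      intro r hr
      rw [mul_add, add_mul, add_mul, addE, addE]
      exact ⟨S.add_mem (hy r hr).1 (hz r hr).1, S.add_mem (hy r hr).2 (hz r hr).2⟩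
    | mul y z _ _ hy hz =>
      intro r hr
      rw [← mul_assoc]
      exact hz _ (hy r hr)
  have := main 1 ⟨by have := key 0 0 1 h01; exact this, by have := key 0 1 1 h01; exact this⟩
  rwa [one_mul] at this

lemma inf_or [Finite K] [Infinite A] (a b : A) (hab : Algebra.adjoin K {a, b} = ⊤) :
    (Set.range fun c : A => c * a).Infinite ∨ (Set.range fun c : A => c * b).Infinite := by
  by_contra h
  rw [not_or, Set.not_infinite, Set.not_infinite] at h
  obtain ⟨h1, h2⟩ := h
  have : Finite (Set.range fun c : A => c * a) := h1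
  have : Finite (Set.range fun c : A => c * b) := h2
  have hfin : Finite A := by
    refine Finite.of_surjective (fun t : K × (Set.range fun c : A => c * a) ×
      (Set.range fun c : A => c * b) => algebraMap K A t.1 + t.2.1.1 + t.2.2.1) ?_
    intro c
    have hc : c ∈ Algebra.adjoin K {a, b} := by rw [hab]; exact Algebra.mem_top
    suffices h : ∃ (k : K) (x y : A), c = algebraMap K A k + x * a + y * b by
      obtain ⟨k, x, y, hk⟩ := h
      exact ⟨(k, ⟨x * a, x, rfl⟩, ⟨y * b, y, rfl⟩), hk.symm⟩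
    induction hc using Algebra.adjoin_induction with
    | mem y hy =>
      rcases hy with rfl | hy
      · exact ⟨0, 1, 0, by simp⟩
      · rw [Set.mem_singleton_iff] at hy
        rw [hy]
        exact ⟨0, 0, 1, by simp⟩
    | algebraMap k => exact ⟨k, 0, 0, by simp⟩
    | add y z _ _ hy hz =>
      obtain ⟨k, x, y', hk⟩ := hy
      obtain ⟨k2, x2, y2, hk2⟩ := hz
      refine ⟨k + k2, x + x2, y' + y2, ?_⟩
      rw [hk, hk2, map_add, add_mul, add_mul]
      abel
    | mul y z _ _ hy hz =>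
      obtain ⟨k, x, y', hk⟩ := hy
      obtain ⟨k2, x2, y2, hk2⟩ := hz
      refine ⟨k2 * k, algebraMap K A k2 * x + y * x2, algebraMap K A k2 * y' + y * y2, ?_⟩
      have e : y * z = algebraMap K A k2 * y + y * x2 * a + y * y2 * b := by
        rw [hk2, mul_add, mul_add, ← Algebra.commutes, mul_assoc, mul_assoc]
      have e2 : algebraMap K A k2 * y = algebraMap K A k2 * algebraMap K A k +
          algebraMap K A k2 * x * a + algebraMap K A k2 * y' * b := by
        conv_lhs => rw [hk]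
        rw [mul_add, mul_add, mul_assoc, mul_assoc]
      rw [e, e2, map_mul, add_mul, add_mul]
      abel
  exact not_finite_iff_infinite.mpr ‹Infinite A› hfin

lemma infinite_closure [Finite K] [Infinite A] (a b : A) (hab : Algebra.adjoin K {a, b} = ⊤)
    (z w : Kˣ) (j : ℕ) (hz : z⁻¹ ≠ z) (hw1 : w⁻¹ ≠ w) (hw2 : w ^ j ≠ w) (hw3 : w ^ j ≠ w⁻¹) :
    ¬ ((Subgroup.closure ({ua a b z, ub A w j} : Set (R3 A)ˣ) : Subgroup (R3 A)ˣ) :
      Set (R3 A)ˣ).Finite := by
  set H := Subgroup.closure ({ua a b z, ub A w j} : Set (R3 A)ˣ) with hH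
  set S := Algebra.adjoin K (Units.val '' (H : Set (R3 A)ˣ)) with hS
  have h1 : (ua a b z).val ∈ S := Algebra.subset_adjoin
    (Set.mem_image_of_mem _ (Subgroup.subset_closure (Or.inl rfl)))
  have h2 : (ub A w j).val ∈ S := Algebra.subset_adjoin
    (Set.mem_image_of_mem _ (Subgroup.subset_closure (Or.inr rfl)))
  have he : idem a b ∈ S := by
    have h3 : (z : K) - ((z⁻¹ : Kˣ) : K) ≠ 0 := by
      rw [sub_ne_zero]
      intro h
      exact hz (Units.ext h.symm)
    have h4 : idem a b = ((z : K) - ((z⁻¹ : Kˣ) : K))⁻¹ •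
        ((ua a b z).val - algebraMap K (R3 A) ((z⁻¹ : Kˣ) : K)) := by
      have h5 : (ua a b z).val = ((z⁻¹ : Kˣ) : K) • (1 - idem a b) + (z : K) • idem a b := rfl
      have h6 : (ua a b z).val - algebraMap K (R3 A) ((z⁻¹ : Kˣ) : K) =
          ((z : K) - ((z⁻¹ : Kˣ) : K)) • idem a b := by
        rw [h5, Algebra.algebraMap_eq_smul_one, smul_sub, sub_smul]
        abel
      rw [h6, smul_smul, inv_mul_cancel₀ h3, one_smul]
    rw [h4]
    exact S.smul_mem (S.sub_mem h1 (S.algebraMap_mem _)) _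
  have ht : ∀ i, tHom K A (Pi.single i 1) ∈ S := by
    refine single_mem S (fun i => ((![w, w⁻¹, w ^ j] i : Kˣ) : K)) ?_ h2
    intro i i' h
    have h' : (![w, w⁻¹, w ^ j] : Fin 3 → Kˣ) i = (![w, w⁻¹, w ^ j] : Fin 3 → Kˣ) i' :=
      Units.ext h
    fin_cases i <;> fin_cases i'
    · rfl
    · exact absurd h'.symm hw1
    · exact absurd h'.symm hw2
    · exact absurd h' hw1
    · rfl
    · exact absurd h'.symm hw3
    · exact absurd h' hw2
    · exact absurd h' hw3
    · rfl
  have hmem := all_mem a b hab S he ht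
  rcases inf_or (K := K) a b hab with h | h
  · have : Infinite (Set.range fun c : A => c * a) := h.to_subtype
    refine units_infinite K H (fun c : (Set.range fun c : A => c * a) => E0 0 (c : A)) ?_ ?_
    · intro c d hcd
      apply Subtype.ext
      have := congrFun (congrFun hcd 0) 0
      simpa [E0] using this
    · rintro ⟨_, c, rfl⟩
      exact (hmem c).1
  · have : Infinite (Set.range fun c : A => c * b) := h.to_subtype
    refine units_infinite K H (fun c : (Set.range fun c : A => c * b) => E0 1 (c : A)) ?_ ?_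
    · intro c d hcd
      apply Subtype.ext
      have := congrFun (congrFun hcd 0) 1
      simpa [E0] using this
    · rintro ⟨_, c, rfl⟩
      exact (hmem c).2

/-- Left multiplication by a unit. -/
def phi (R : Type) [Ring R] : Rˣ →* (R ≃ₗ[ℤ] R) where
  toFun u :=
    { toFun := fun r => u.val * r
      map_add' := fun r s => mul_add _ r s
      map_smul' := fun n r => mul_smul_comm n _ r
      invFun := fun r => u⁻¹.val * r
      left_inv := fun r => by simp
      right_inv := fun r => by simp }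
  map_one' := by
    ext r
    simp
  map_mul' u v := by
    ext r
    simp [mul_assoc]

lemma phi_apply (R : Type) [Ring R] (u : Rˣ) (r : R) : phi R u r = u.val * r := rfl

lemma phi_injective (R : Type) [Ring R] : Function.Injective (phi R) := by
  intro u v h
  have h1 := LinearEquiv.congr_fun h 1
  rw [phi_apply, phi_apply, mul_one, mul_one] at h1
  exact Units.ext h1

end Ring

lemma exists_unit (p : ℕ) [Fact p.Prime] (m : ℕ) (h : m ∣ p - 1) :
    ∃ z : (ZMod p)ˣ, orderOf z = m := by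
  have h1 : Nat.card (ZMod p)ˣ = p - 1 := by
    rw [Nat.card_eq_fintype_card, ZMod.card_units]
  obtain ⟨g, hg⟩ := IsCyclic.exists_generator (α := (ZMod p)ˣ)
  have h2 : orderOf g = p - 1 := by rw [orderOf_eq_card_of_forall_mem_zpowers hg, h1]
  obtain ⟨k, hk⟩ := h
  have hp : 0 < p - 1 := by have := (Fact.out : p.Prime).two_le; omega
  have hk0 : k ≠ 0 := by rintro rfl; omega
  refine ⟨g ^ k, ?_⟩
  rw [orderOf_pow' g hk0, h2, hk, Nat.gcd_eq_right (Dvd.intro_left m rfl),
    Nat.mul_div_cancel _ (Nat.pos_of_ne_zero hk0)]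

/-- **The examples.** -/
theorem counter (m n j : ℕ) (hm : 3 ≤ m) (hn : 3 ≤ n) (hj1 : ¬ n ∣ j + 1)
    (hj2 : ∀ q, j ≠ n * q + 1) :
    ∃ (V : Type) (_ : AddCommGroup V) (α β : V ≃ₗ[ℤ] V), orderOf α = m ∧ orderOf β = n ∧
      Regular α ∧ (∀ k, ¬ n ∣ k → ¬ n ∣ j * k → FixedPointFree (β ^ k)) ∧
      (∀ g ∈ Subgroup.closure ({α, β} : Set (V ≃ₗ[ℤ] V)), IsOfFinOrder g) ∧
      ¬ Finite (Subgroup.closure ({α, β} : Set (V ≃ₗ[ℤ] V))) := by
  obtain ⟨p, hp, _, hmod⟩ := Nat.exists_prime_gt_modEq_one (k := m * n) 0 (by positivity)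
  have : Fact p.Prime := ⟨hp⟩
  have hdvd : m * n ∣ p - 1 := (Nat.modEq_iff_dvd' hp.one_lt.le).mp hmod.symm
  obtain ⟨z, hz⟩ := exists_unit p m ((Dvd.intro n rfl).trans hdvd)
  obtain ⟨w, hw⟩ := exists_unit p n ((Dvd.intro_left m rfl).trans hdvd)
  obtain ⟨A, _, _, a, b, hab, hinf, hper⟩ := exists_periodic_GL p 3
  have hnt : Nontrivial A := inferInstance
  have hz1 : z⁻¹ ≠ z := by
    intro h
    have h2 : z ^ 2 = 1 := by
      rw [pow_two]
      nth_rewrite 1 [← h]
      exact inv_mul_cancel z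
    have h3 := orderOf_dvd_of_pow_eq_one h2
    rw [hz] at h3
    have := Nat.le_of_dvd (by norm_num) h3
    omega
  have hw1 : w⁻¹ ≠ w := by
    intro h
    have h2 : w ^ 2 = 1 := by
      rw [pow_two]
      nth_rewrite 1 [← h]
      exact inv_mul_cancel w
    have h3 := orderOf_dvd_of_pow_eq_one h2
    rw [hw] at h3
    have := Nat.le_of_dvd (by norm_num) h3
    omega
  have hw3 : w ^ j ≠ w⁻¹ := by
    intro h
    apply hj1
    rw [← hw]
    apply orderOf_dvd_of_pow_eq_one
    rw [pow_succ, h, inv_mul_cancel]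
  have hw2 : w ^ j ≠ w := by
    intro h
    have h2 : w ^ j = w ^ 1 := by rw [h, pow_one]
    rw [pow_eq_pow_iff_modEq, hw] at h2
    rcases Nat.eq_zero_or_pos j with hj0 | hj0
    · rw [hj0] at h2
      have h3 : n ∣ 1 - 0 := (Nat.modEq_iff_dvd' (by norm_num)).mp h2
      have := Nat.le_of_dvd (by norm_num) h3
      omega
    · obtain ⟨q, hq⟩ := (Nat.modEq_iff_dvd' hj0).mp h2.symm
      exact hj2 q (by omega)
  have hreg : ∀ (u : (R3 A)ˣ), (∃ r : R3 A, r * ((u : R3 A) - 1) = 1) →
      FixedPointFree (phi (R3 A) u) := by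
    rintro u ⟨r, hr⟩ v hv
    rw [phi_apply] at hv
    have h1 : ((u : R3 A) - 1) * v = 0 := by rw [sub_mul, hv, one_mul, sub_self]
    calc v = r * ((u : R3 A) - 1) * v := by rw [hr, one_mul]
      _ = 0 := by rw [mul_assoc, h1, mul_zero]
  have hmap : Subgroup.closure ({phi (R3 A) (ua a b z), phi (R3 A) (ub A w j)} :
      Set (R3 A ≃ₗ[ℤ] R3 A)) =
      (Subgroup.closure ({ua a b z, ub A w j} : Set (R3 A)ˣ)).map (phi (R3 A)) := by
    rw [MonoidHom.map_closure, Set.image_pair]
  refine ⟨R3 A, inferInstance, phi (R3 A) (ua a b z), phi (R3 A) (ub A w j), ?_, ?_, ?_, ?_, ?_, ?_⟩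
  · rw [orderOf_injective _ (phi_injective _), orderOf_ua, hz]
  · rw [orderOf_injective _ (phi_injective _), orderOf_ub, hw]
  · intro k hk
    rw [← map_pow] at hk ⊢
    refine hreg _ (reg_ua a b z k fun h => hk ?_)
    have h1 : (ua a b z) ^ k = 1 := by
      rw [← orderOf_dvd_iff_pow_eq_one, orderOf_ua, orderOf_dvd_iff_pow_eq_one]
      exact h
    rw [h1, map_one]
  · intro k hk hjk
    rw [← map_pow]
    refine hreg _ (reg_ub w j k (fun h => hk ?_) (fun h => hjk ?_))
    · rw [← hw]; exact orderOf_dvd_of_pow_eq_one h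
    · rw [← hw]; exact orderOf_dvd_of_pow_eq_one h
  · intro g hg
    rw [hmap] at hg
    obtain ⟨u, _, rfl⟩ := hg
    exact MonoidHom.isOfFinOrder _ (hper u)
  · intro hfin
    rw [hmap] at hfin
    have h := infinite_closure a b hab z w j hz1 hw1 hw2 hw3
    apply h
    have h2 : Finite (Subgroup.closure ({ua a b z, ub A w j} : Set (R3 A)ˣ)) :=
      (Subgroup.equivMapOfInjective _ (phi (R3 A)) (phi_injective _)).toEquiv.finite_iff.mpr hfin
    exact h2

end Pool.Agent.Y55.Fpf
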